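import Pool.Agent.H91.AS5

set_option autoImplicit false

theorem Pool.Agent.Results.MP_bb898f_an.Image.result :
    (fun x => dimH (H91.AS.AS H91.AS.gauss (Set.Ico 0 1) x)) '' Set.Ico 0 1 = Set.Icc 0 (1 / 2) :=
  H91.AS.gaussImage
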